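import Pool.Agent.Helper568_LM.MainS
import Pool.Agent.Helper568_LM.Pair

/-!
# Lang's equivalence for abelian coverings of complete intersections

MP_f82ddf_nt, Q1. Let `K` be a number field and let `X` be the variety `G j (x) = 0` (`j < r`),
`y i ^ k i = F i (x)` (`i < S`), where `x = (x_0, …, x_M)`, the `G j` are forms of degree `d j` and
`F i` is a form of degree `k i * m i` with coefficients in `K`: an abelian covering of a complete
intersection in the projective space of dimension `M`, in the weighted projective space in which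
`y i` has weight `m i`. If it is a smooth complete intersection, its dimension is `n = M - r` and its
canonical divisor is `(∑ d j + ∑ (k i - 1) m i - M - 1) H`, where `H` is the hyperplane class. If it
is at most `(n - 2) H` and some `k i` is at least two, or if it is at most `(n - 1) H` and some
`k i` is divisible by `3`, or some `k i` is even with `m i ≥ 2`, or two of the `k i` are even, then
both sides of Lang's equivalence are false for `X`: for all embeddings `σ` of `K` there is a
nonconstant entire curve in `X_σ`, and over some finite extension `L` of `K` there are infinitely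
many points.
-/

set_option autoImplicit false

namespace Pool.Agent.Results.MP_f82ddf_nt.AbelianCoversLang

open MvPolynomial Pool.Agent.Helper568.LM Pool.Agent.Helper568.LL

theorem result (K : Type) [Field K] [NumberField K] (M r S : ℕ) (d : Fin r → ℕ)
    (hd : ∀ j, 1 ≤ d j) (k m : Fin S → ℕ) (hk : ∀ i, 1 ≤ k i) (hm : ∀ i, 1 ≤ m i)
    (hK : (∑ j, (d j + 1) + ∑ i, (k i - 1) * m i + 1 ≤ 2 * M ∧ ∃ i, 2 ≤ k i) ∨
      (∑ j, (d j + 1) + ∑ i, (k i - 1) * m i ≤ 2 * M ∧
        ((∃ i, 3 ∣ k i) ∨ (∃ i, 2 ∣ k i ∧ 2 ≤ m i) ∨ ∃ i i', i ≠ i' ∧ 2 ∣ k i ∧ 2 ∣ k i')))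
    (G : Fin r → MvPolynomial (Fin (M + 1)) K) (hG : ∀ j, (G j).IsHomogeneous (d j))
    (F : Fin S → MvPolynomial (Fin (M + 1)) K) (hF : ∀ i, (F i).IsHomogeneous (k i * m i)) :
    (∀ σ : K →+* ℂ, ¬ Hyperbolic m k (fun j => map σ (G j)) (fun i => map σ (F i))) ∧
    ∃ (L : Type) (_ : Field L) (_ : Algebra K L), FiniteDimensional K L ∧
      ¬ FinitelyManyPoints m k (fun j => map (algebraMap K L) (G j))
        (fun i => map (algebraMap K L) (F i)) := by
  classical
  obtain ⟨σ0⟩ : Nonempty (K →+* ℂ) := inferInstance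
  -- the dimension is positive
  have hM : ∀ i, 2 ≤ k i → ∑ i, (k i - 1) * m i ≤ 2 * M → 1 ≤ M := by
    intro i hi h
    have h1 : (k i - 1) * m i ≤ ∑ i, (k i - 1) * m i :=
      Finset.single_le_sum (f := fun i => (k i - 1) * m i) (fun _ _ => Nat.zero_le _)
        (Finset.mem_univ i)
    have h2 : 1 ≤ (k i - 1) * m i := Nat.mul_pos (by omega) (hm i)
    omega
  have hM1 : 1 ≤ M := by
    rcases hK with ⟨h, i, hi⟩ | ⟨h, ⟨i, hi⟩ | ⟨i, hi, -⟩ | ⟨i, -, -, hi, -⟩⟩
    · exact hM i hi (by omega)
    · exact hM i (by have := Nat.le_of_dvd (hk i) hi; omega) (by omega)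
    · exact hM i (Nat.le_of_dvd (hk i) hi) (by omega)
    · exact hM i (Nat.le_of_dvd (hk i) hi) (by omega)
  obtain ⟨N, rfl⟩ : ∃ N, M = N + 1 := ⟨M - 1, by omega⟩
  -- the general principle
  have key : ∀ (w q : Fin S → ℕ) (e' : Fin S → ℕ → ℕ) (δ : Fin S → ℕ),
      (∀ i n, n < w i → 1 ≤ e' i n) →
      (∀ i, ∑ n ∈ Finset.range (w i), e' i n + q i * k i = k i * m i) →
      (∀ i, (∑ n ∈ Finset.range (w i), (e' i n - 1) + q i * (k i - 1)) + δ i = (k i - 1) * m i) →
      ∑ j, (d j + 1) + ∑ i, (k i - 1) * m i ≤ 2 * N + ∑ i, δ i →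
      AnS k w e' → ArS k w e' →
      (∀ σ : K →+* ℂ, ¬ Hyperbolic m k (fun j => map σ (G j)) (fun i => map σ (F i))) ∧
      ∃ (L : Type) (_ : Field L) (_ : Algebra K L), FiniteDimensional K L ∧
        ¬ FinitelyManyPoints m k (fun j => map (algebraMap K L) (G j))
          (fun i => map (algebraMap K L) (F i)) := by
    intro w q e' δ he' hD hδ hsum hAn hAr
    have hle : ∑ j, (d j + 1) +
        ∑ i, (∑ n ∈ Finset.range (w i), (e' i n - 1) + q i * (k i - 1)) ≤ 2 * N := by
      have h1 : ∑ i, ((∑ n ∈ Finset.range (w i), (e' i n - 1) + q i * (k i - 1)) + δ i) =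
          ∑ i, (k i - 1) * m i := Finset.sum_congr rfl fun i _ => hδ i
      rw [Finset.sum_add_distrib] at h1
      omega
    refine ⟨fun σ => not_hypS hd hk hm he' hD hle hAn (fun j => (hG j).map σ)
      fun i => (hF i).map σ, ?_⟩
    obtain ⟨L, h1, h2⟩ := inf_pointsS hd hk hm he' hD hle σ0 hAr hG hF
    exact ⟨L, inferInstance, inferInstance, h1, h2⟩
  -- one distinguished covering
  have single : ∀ (i0 : Fin S) (w0 q0 δ0 : ℕ) (e0 : Fin w0 → ℕ), (∀ l, 1 ≤ e0 l) →
      ∑ l, e0 l + q0 * k i0 = k i0 * m i0 →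
      (∑ l, (e0 l - 1) + q0 * (k i0 - 1)) + δ0 = (k i0 - 1) * m i0 →
      ∑ j, (d j + 1) + ∑ i, (k i - 1) * m i ≤ 2 * N + δ0 →
      AnCurve (k i0) e0 → ArCurve (k i0) e0 →
      (∀ σ : K →+* ℂ, ¬ Hyperbolic m k (fun j => map σ (G j)) (fun i => map σ (F i))) ∧
      ∃ (L : Type) (_ : Field L) (_ : Algebra K L), FiniteDimensional K L ∧
        ¬ FinitelyManyPoints m k (fun j => map (algebraMap K L) (G j))
          (fun i => map (algebraMap K L) (F i)) := by
    intro i0 w0 q0 δ0 e0 he0 hD0 hδ0 hsum hAn hAr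
    have hsum0 : ∀ f : ℕ → ℕ, ∑ n ∈ Finset.range w0, f (if h : n < w0 then e0 ⟨n, h⟩ else 0) =
        ∑ l, f (e0 l) := by
      intro f
      rw [Finset.sum_range]
      refine Finset.sum_congr rfl fun l _ => ?_
      rw [dif_pos l.2]
    refine key (fun i => if i = i0 then w0 else 0) (fun i => if i = i0 then q0 else m i)
      (fun _ n => if h : n < w0 then e0 ⟨n, h⟩ else 0) (fun i => if i = i0 then δ0 else 0)
      ?_ ?_ ?_ ?_ (anS_single hAn) (arS_single hAr)
    · intro i n hn
      by_cases hi : i = i0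
      · rw [if_pos hi] at hn
        beta_reduce
        rw [dif_pos hn]
        exact he0 _
      · rw [if_neg hi] at hn
        omega
    · intro i
      by_cases hi : i = i0
      · subst hi
        simp only [if_true]
        rw [hsum0 fun n => n]
        exact hD0
      · simp only [if_neg hi]
        simp [mul_comm]
    · intro i
      by_cases hi : i = i0
      · subst hi
        simp only [if_true]
        rw [hsum0 fun n => n - 1]
        exact hδ0
      · simp only [if_neg hi]
        simp [mul_comm]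
    · simpa using hsum
  -- the cases
  rcases hK with ⟨h, i0, hi0⟩ | ⟨h, h3 | h2 | h22⟩
  · obtain ⟨k1, hk1⟩ : ∃ k1, k i0 = k1 + 2 := ⟨k i0 - 2, by omega⟩
    obtain ⟨m1, hm1⟩ : ∃ m1, m i0 = m1 + 1 := ⟨m i0 - 1, by have := hm i0; omega⟩
    refine single i0 2 m1 1 (![1, k i0 - 1] : Fin 2 → ℕ) ?_ ?_ ?_ (by omega)
      (an_two (hk i0)) (ar_two (hk i0))
    · intro l
      fin_cases l
      · exact le_refl 1
      · change 1 ≤ k i0 - 1
        omega
    · rw [Fin.sum_univ_two]
      simp only [Matrix.cons_val_zero, Matrix.cons_val_one]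
      rw [hk1, hm1]
      have e1 : (k1 + 2) * (m1 + 1) = m1 * (k1 + 2) + (k1 + 2) := by ring
      omega
    · rw [Fin.sum_univ_two]
      simp only [Matrix.cons_val_zero, Matrix.cons_val_one]
      rw [hk1, hm1]
      have e0 : k1 + 2 - 1 = k1 + 1 := by omega
      rw [e0]
      have e1 : (k1 + 1) * (m1 + 1) = m1 * (k1 + 1) + (k1 + 1) := by ring
      omega
  · obtain ⟨i0, k', hk'⟩ := h3
    have hk1 := hk i0
    obtain ⟨k1, rfl⟩ : ∃ k1, k' = k1 + 1 := ⟨k' - 1, by omega⟩
    obtain ⟨m1, hm1⟩ : ∃ m1, m i0 = m1 + 1 := ⟨m i0 - 1, by have := hm i0; omega⟩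
    refine single i0 3 m1 2 (fun _ => k1 + 1) (fun _ => by omega) ?_ ?_ (by omega)
      (hk' ▸ an_three (k1 + 1)) (hk' ▸ ar_three (k1 + 1))
    · rw [Finset.sum_const, Finset.card_univ, Fintype.card_fin, smul_eq_mul, hk', hm1]
      ring
    · rw [Finset.sum_const, Finset.card_univ, Fintype.card_fin, smul_eq_mul, hk', hm1]
      have e0 : 3 * (k1 + 1) - 1 = 3 * k1 + 2 := by omega
      rw [e0, Nat.add_sub_cancel]
      ring
  · obtain ⟨i0, ⟨k', hk'⟩, hm2⟩ := h2
    have hk1 := hk i0
    obtain ⟨k1, rfl⟩ : ∃ k1, k' = k1 + 1 := ⟨k' - 1, by omega⟩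
    obtain ⟨m1, hm1⟩ : ∃ m1, m i0 = m1 + 2 := ⟨m i0 - 2, by omega⟩
    refine single i0 4 m1 2 (fun _ => k1 + 1) (fun _ => by omega) ?_ ?_ (by omega)
      (hk' ▸ an_four (k1 + 1)) (hk' ▸ ar_four (k1 + 1))
    · rw [Finset.sum_const, Finset.card_univ, Fintype.card_fin, smul_eq_mul, hk', hm1]
      ring
    · rw [Finset.sum_const, Finset.card_univ, Fintype.card_fin, smul_eq_mul, hk', hm1]
      have e0 : 2 * (k1 + 1) - 1 = 2 * k1 + 1 := by omega
      rw [e0, Nat.add_sub_cancel]
      ring
  · obtain ⟨i0, i1, hne, ⟨a, ha⟩, ⟨b, hb⟩⟩ := h22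
    refine key (fun i => if i = i0 ∨ i = i1 then 2 else 0)
      (fun i => if i = i0 ∨ i = i1 then m i - 1 else m i) (fun i _ => k i / 2)
      (fun i => (if i = i0 then 1 else 0) + (if i = i1 then 1 else 0)) ?_ ?_ ?_ ?_
      (anS_pair hne ha hb) (arS_pair hne ha hb)
    · intro i n hn
      have h1 := hk i
      by_cases hi : i = i0 ∨ i = i1
      · rcases hi with hi | hi
        · subst hi
          change 1 ≤ k i / 2
          omega
        · subst hi
          change 1 ≤ k i / 2
          omega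
      · rw [if_neg hi] at hn
        omega
    · intro i
      by_cases hi : i = i0 ∨ i = i1
      · simp only [if_pos hi, Finset.sum_const, Finset.card_range, smul_eq_mul]
        have hev : 2 * (k i / 2) = k i := by
          rcases hi with hi | hi
          · subst hi; omega
          · subst hi; omega
        rw [hev]
        obtain ⟨m1, hm1⟩ : ∃ m1, m i = m1 + 1 := ⟨m i - 1, by have := hm i; omega⟩
        rw [hm1, Nat.add_sub_cancel]
        ring
      · simp only [if_neg hi]
        simp [mul_comm]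
    · intro i
      by_cases hi : i = i0 ∨ i = i1
      · simp only [if_pos hi, Finset.sum_const, Finset.card_range, smul_eq_mul]
        have hev : ∃ c, k i = 2 * (c + 1) := by
          have h1 := hk i
          rcases hi with hi | hi
          · subst hi
            exact ⟨a - 1, by omega⟩
          · subst hi
            exact ⟨b - 1, by omega⟩
        obtain ⟨c, hc⟩ := hev
        have hδ : (if i = i0 then 1 else 0) + (if i = i1 then 1 else 0) = 1 := by
          rcases hi with hi | hi
          · subst hi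
            rw [if_pos rfl, if_neg hne]
          · subst hi
            rw [if_neg (Ne.symm hne), if_pos rfl]
        obtain ⟨m1, hm1⟩ : ∃ m1, m i = m1 + 1 := ⟨m i - 1, by have := hm i; omega⟩
        have e1 : 2 * (c + 1) / 2 = c + 1 := by omega
        have e2 : 2 * (c + 1) - 1 = 2 * c + 1 := by omega
        rw [hδ, hm1, hc, e1, e2, Nat.add_sub_cancel, Nat.add_sub_cancel]
        ring
      · have hi0 : i ≠ i0 := fun h => hi (Or.inl h)
        have hi1 : i ≠ i1 := fun h => hi (Or.inr h)
        simp only [if_neg hi, if_neg hi0, if_neg hi1]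
        simp [mul_comm]
    · have e1 : ∑ i : Fin S, ((if i = i0 then 1 else 0) + (if i = i1 then 1 else 0)) = 2 := by
        rw [Finset.sum_add_distrib]
        simp
      rw [e1]
      omega

end Pool.Agent.Results.MP_f82ddf_nt.AbelianCoversLang
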