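import Mathlib
import Pool.Agent.Helper435.RT.Main

/-!
MP_f82ddf_nt, Q1: the equivalence of hyperbolicity and finiteness of rational points, for points
which are given by formulas in one real variable.
-/

set_option autoImplicit false

namespace Pool.Agent.Results.MP_f82ddf_nt.FormulaPoints

open MvPolynomial Pool.Agent.Helper435.RT

/-- There are numbers `B N d n` with the following property. Let `K` be a number field, embedded in
`ℂ` by `σ`, let `X` and `Z` be the varieties in the projective space of dimension `N` over `K` which
are given by the forms in `I` and `I'`. The following are equivalent: all rational curves in `X` lie
in `Z`; all nonconstant entire curves in `X`, with coordinates which are obtained from the constants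
by additions, multiplications, exponentials and integrations, lie in `Z`; if `X` is given by forms
of degree at most `d`, at most `B N d n` points of `X(L)` outside of `Z` are given by formulas in
one real variable with at most `n` nested operations, for all fields `L` which contain `K`; for all
finite extensions `L` of `K`, only finitely many points of `X(L)` outside of `Z` are given by such
formulas.

In particular, this holds if all nonconstant entire curves in `X` lie in `Z`, and if `X(L)`
without the points of `Z` is finite for all finite extensions `L` of `K`. -/
theorem result : ∃ B : ℕ → ℕ → ℕ → ℕ, ∀ (K : Type) [Field K] [NumberField K] (σ : K →+* ℂ) (N : ℕ)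
    (I I' : Ideal (MvPolynomial (Fin (N + 1)) K)),
    [RationalCurves σ I I', ExpCurves σ I I', ∀ d n, GenBy d I → AtMost (B N d n) n I I',
      FormulaFinite I I'].TFAE ∧
    (Hyperbolic σ I I' → ∀ d n, GenBy d I → AtMost (B N d n) n I I') ∧
    (Finiteness I I' → ExpCurves σ I I') :=
  main

end Pool.Agent.Results.MP_f82ddf_nt.FormulaPoints
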